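import Pool.Agent.Y208.LQ.Stm
import Pool.Agent.Y208.LQ.Bas

/-!
# The ideal generated by a nonzero combination of forests of one type is everything
-/

set_option autoImplicit false

namespace Pool.Agent.Y571.LQ

open Y208.LQ

theorem h_fill (M : ℕ) (t : OT) : (t.fill M).h = 0 := by
  induction t with
  | hole => rfl
  | nu m => rfl
  | lf m => rfl
  | node l r ihl ihr => simp [OT.fill, OT.h, ihl, ihr]

theorem Lt_mono {M M' : ℕ} (hM : M ≤ M') (t : OT) (h : OT.Lt M t) : OT.Lt M' t := by
  induction t with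
  | hole => trivial
  | nu m => trivial
  | lf m => exact lt_of_lt_of_le (show m < M from h) hM
  | node l r ihl ihr => exact ⟨ihl h.1, ihr h.2⟩

theorem bound_tree (t : OT) : ∃ M, OT.Lt M t := by
  induction t with
  | hole => exact ⟨0, trivial⟩
  | nu m => exact ⟨0, trivial⟩
  | lf m => exact ⟨m + 1, Nat.lt_succ_self m⟩
  | node l r ihl ihr =>
    obtain ⟨M1, h1⟩ := ihl
    obtain ⟨M2, h2⟩ := ihr
    exact ⟨max M1 M2, Lt_mono (le_max_left _ _) l h1, Lt_mono (le_max_right _ _) r h2⟩

theorem bound_list (G : List OT) : ∃ M, ∀ t ∈ G, OT.Lt M t := by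
  induction G with
  | nil => exact ⟨0, by simp⟩
  | cons t G ih =>
    obtain ⟨M1, h1⟩ := bound_tree t
    obtain ⟨M2, h2⟩ := ih
    refine ⟨max M1 M2, ?_⟩
    intro u hu
    rcases List.mem_cons.1 hu with rfl | hu
    · exact Lt_mono (le_max_left _ _) _ h1
    · exact Lt_mono (le_max_right _ _) _ (h2 u hu)

theorem bound_fin {ι : Type} (S : Finset ι) (g : ι → List OT) :
    ∃ M, ∀ i ∈ S, ∀ t ∈ g i, OT.Lt M t := by
  classical
  induction S using Finset.induction_on with
  | empty => exact ⟨0, by simp⟩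
  | insert a S _ ih =>
    obtain ⟨M1, h1⟩ := bound_list (g a)
    obtain ⟨M2, h2⟩ := ih
    refine ⟨max M1 M2, ?_⟩
    intro i hi t ht
    rcases Finset.mem_insert.1 hi with rfl | hi
    · exact Lt_mono (le_max_left _ _) _ (h1 t ht)
    · exact Lt_mono (le_max_right _ _) _ (h2 i hi t ht)

section
variable {F B : Type} [Field F] [Ring B] [Algebra F B] (w : SwA F B)

/-- the product of the left inverses, in reverse order -/
def V (G : List OT) : B := ((G.map (U' w)).reverse).prod

/-- the product of the operations building the trees -/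
def P (G : List OT) : B := (G.map (U w)).prod

theorem V_cons (t : OT) (G : List OT) : V w (t :: G) = V w G * U' w t := by
  simp [V]

theorem P_cons (t : OT) (G : List OT) : P w (t :: G) = U w t * P w G := by
  simp [P]

theorem P_nil : P w [] = 1 := rfl

theorem V_nil : V w [] = 1 := rfl

/-- The relations between the operations building closed trees and their left inverses. -/
def Rel : Prop := ∀ t t' : OT, t.h = 0 → t'.h = 0 → U' w t * U w t' = if t = t' then 1 else 0

theorem V_mul_P (h1 : Rel w) (G0 G : List OT) (hG0 : ∀ t ∈ G0, t.h = 0) (hG : ∀ t ∈ G, t.h = 0)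
    (hlen : G0.length ≤ G.length) :
    (∃ G2, G = G0 ++ G2 ∧ V w G0 * P w G = P w G2) ∨ (G ≠ G0 ∧ V w G0 * P w G = 0) := by
  induction G0 generalizing G with
  | nil => exact Or.inl ⟨G, rfl, by rw [V_nil, one_mul]⟩
  | cons t G0 ih =>
    cases G with
    | nil => simp at hlen
    | cons t' G =>
      have ht : t.h = 0 := hG0 t (by simp)
      have ht' : t'.h = 0 := hG t' (by simp)
      have hr := h1 t t' ht ht'
      have hm : V w (t :: G0) * P w (t' :: G) = V w G0 * (U' w t * U w t') * P w G := by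
        rw [V_cons, P_cons]; simp only [mul_assoc]
      by_cases hh : t = t'
      · subst hh
        rw [if_pos rfl] at hr
        rw [hr, mul_one] at hm
        rcases ih G (fun u hu => hG0 u (List.mem_cons_of_mem _ hu))
          (fun u hu => hG u (List.mem_cons_of_mem _ hu)) (by simpa using hlen) with
          ⟨G2, hG2, hv⟩ | ⟨hne, hv⟩
        · exact Or.inl ⟨G2, by rw [hG2]; rfl, by rw [hm, hv]⟩
        · refine Or.inr ⟨?_, by rw [hm, hv]⟩
          intro he
          exact hne (List.cons.inj he).2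
      · rw [if_neg hh] at hr
        refine Or.inr ⟨?_, by rw [hm, hr, mul_zero, zero_mul]⟩
        intro he
        exact hh (List.cons.inj he).1.symm

theorem value (h1 : Rel w) (G0 G : List OT) (M : ℕ) (hG0 : ∀ t ∈ G0, t.h = 0)
    (hG : ∀ t ∈ G, t.h = 0) (hlen : G0.length ≤ G.length) (hM : ∀ t ∈ G, OT.Lt M t) :
    U' w (.lf M) * V w G0 * P w G * U w (.lf M) = if G = G0 then 1 else 0 := by
  have hM0 : U' w (.lf M) * U w (.lf M) = 1 := by
    rw [h1 (.lf M) (.lf M) rfl rfl, if_pos rfl]
  rcases V_mul_P w h1 G0 G hG0 hG hlen with ⟨G2, hG2, hv⟩ | ⟨hne, hv⟩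
  · rw [mul_assoc (U' w (.lf M)), hv]
    cases G2 with
    | nil =>
      rw [List.append_nil] at hG2
      rw [P_nil, mul_one, hM0, if_pos hG2]
    | cons t G3 =>
      have htG : t ∈ G := by rw [hG2]; simp
      have hne : G ≠ G0 := by
        intro he
        have := congrArg List.length hG2
        rw [he] at this
        simp at this
      have htne : (OT.lf M) ≠ t := by
        intro he
        have := hM t htG
        rw [← he] at this
        exact lt_irrefl M this
      rw [P_cons, ← mul_assoc, h1 (.lf M) t rfl (hG t htG), if_neg htne, zero_mul, zero_mul,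
        if_neg hne]
  · rw [mul_assoc (U' w (.lf M)), hv, mul_zero, zero_mul, if_neg hne]

theorem key (h1 : Rel w) (J : TwoSidedIdeal B) {ι : Type} (S : Finset ι) (c : ι → F)
    (g : ι → List OT) (hinj : Set.InjOn g (S : Set ι)) (hS : S.Nonempty)
    (hc : ∀ i ∈ S, c i ≠ 0) (hh : ∀ i ∈ S, ∀ t ∈ g i, t.h = 0)
    (hJ : ∑ i ∈ S, c i • P w (g i) ∈ J) : (1 : B) ∈ J := by
  classical
  obtain ⟨i0, hi0, hmin⟩ := Finset.exists_min_image S (fun i => (g i).length) hS
  obtain ⟨M, hM⟩ := bound_fin S g
  have hval : ∀ i ∈ S, U' w (.lf M) * V w (g i0) * P w (g i) * U w (.lf M) =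
      if i = i0 then 1 else 0 := by
    intro i hi
    rw [value w h1 (g i0) (g i) M (hh i0 hi0) (hh i hi) (hmin i hi) (hM i hi)]
    by_cases he : i = i0
    · rw [if_pos he, if_pos (by rw [he])]
    · rw [if_neg he, if_neg (fun h => he (hinj hi hi0 h))]
  have hJ2 : U' w (.lf M) * V w (g i0) * (∑ i ∈ S, c i • P w (g i)) * U w (.lf M) ∈ J :=
    J.mul_mem_right _ _ (J.mul_mem_left _ _ hJ)
  have hsum : U' w (.lf M) * V w (g i0) * (∑ i ∈ S, c i • P w (g i)) * U w (.lf M) =
      c i0 • (1 : B) := by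
    rw [Finset.mul_sum, Finset.sum_mul]
    have : ∀ i ∈ S, U' w (.lf M) * V w (g i0) * (c i • P w (g i)) * U w (.lf M) =
        c i • (if i = i0 then (1 : B) else 0) := by
      intro i hi
      rw [mul_smul_comm, smul_mul_assoc, hval i hi]
    rw [Finset.sum_congr rfl this]
    rw [Finset.sum_eq_single i0]
    · rw [if_pos rfl]
    · intro b _ hb
      rw [if_neg hb, smul_zero]
    · intro hn
      exact absurd hi0 hn
  rw [hsum] at hJ2
  have hJ3 : algebraMap F B (c i0)⁻¹ * (c i0 • (1 : B)) ∈ J := J.mul_mem_left _ _ hJ2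
  have h4 : algebraMap F B (c i0)⁻¹ * (c i0 • (1 : B)) = 1 := by
    rw [← Algebra.smul_def, smul_smul, inv_mul_cancel₀ (hc i0 hi0), one_smul]
  rwa [h4] at hJ3

end

/-- TASK ISO -/
theorem t_ISO (h : S_CLO) : S_ISO := by
  intro F B _ _ _ w J τ X hXJ hX0 hXW
  obtain ⟨h1, h2, h3⟩ := h F B w
  have hset : {z : B | ∃ G : List OT, tyL G = τ ∧ (∀ t ∈ G, OT.Deep 0 t) ∧ 0 ≤ G.length ∧
      z = UL w G} ⊆ (UL w) '' {G | tyL G = τ} := by
    rintro z ⟨G, hG, _, _, rfl⟩
    exact ⟨G, hG, rfl⟩
  have hX1 : X ∈ Submodule.span F ((UL w) '' {G | tyL G = τ}) := Submodule.span_mono hset hXW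
  rw [Finsupp.mem_span_image_iff_linearCombination] at hX1
  obtain ⟨l, hl, hlX⟩ := hX1
  rw [Finsupp.linearCombination_apply, Finsupp.sum] at hlX
  have hty : ∀ G ∈ l.support, tyL G = τ := by
    intro G hG
    exact hl hG
  have hne : l.support.Nonempty := by
    rw [Finset.nonempty_iff_ne_empty]
    intro he
    rw [he, Finset.sum_empty] at hlX
    exact hX0 hlX.symm
  obtain ⟨M, hM⟩ := bound_fin l.support (fun G => G)
  refine key w h1 J l.support (fun G => l G) (fun G => G.map (OT.fill M)) ?_ hne ?_ ?_ ?_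
  · intro G hG G' hG' he
    exact h3 M G G' (hM G hG) (hM G' hG') ((hty G hG).trans (hty G' hG').symm) he
  · intro G hG
    exact Finsupp.mem_support_iff.1 hG
  · intro G _ t ht
    obtain ⟨u, _, rfl⟩ := List.mem_map.1 ht
    exact h_fill M u
  · have h5 : X * U w (.lf M) ^ τ.length ∈ J := J.mul_mem_right _ _ hXJ
    rw [← hlX, Finset.sum_mul] at h5
    have h6 : ∀ G ∈ l.support, l G • UL w G * U w (.lf M) ^ τ.length =
        l G • P w (G.map (OT.fill M)) := by
      intro G hG
      have := h2 M G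
      rw [hty G hG] at this
      rw [smul_mul_assoc, this]
      rfl
    rwa [Finset.sum_congr rfl h6] at h5

end Pool.Agent.Y571.LQ
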